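import Pool.Agent.Q28.CS.Fin

/-!
# Extreme central values in every coset of every subgroup of index at most `exp (c √(log q))`

There is a constant `c > 0` such that for all large primes `q`, all subgroups `H` of the group of the
Dirichlet characters modulo `q` of index at most `exp (c √(log q))` and ALL characters `χ₀` modulo `q` the
coset `χ₀ H` contains a nonprincipal character `χ` with

  `|L(1/2, χ)| ≥ exp (c √(log q / log log q))`.

The constant does not depend on the index.  Known before for nontrivial cosets: index `O((log q)^(1 - ε))`,
with the exponent multiplied by `(2 [X : H] - 1)^(-1/2)`; and for the subgroups themselves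
`log [X : H] = o(√(log q / log log q))`.

Method.  The orthogonal group `G` of `H` has the order `k = [X : H]`.  In the resonance method for a coset the
terms off the diagonal are the relations `a ≡ g b mod q`, `g ∈ G`, between numbers prime to each other, and
they have no sign (`χ₀` oscillates).  Call a relation small if `a, b ≤ A = (16 k)^3`.

1. Among small relations there are at most `log k / log 2` with pairwise disjoint sets of prime divisors,
  because the `2^j` partial products of `j` of them are different elements of `G` (`Excl`).  Therefore
  there is a number `E` with `log E = O((log k)^2)` such that there is no small relation prime to `E`.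
2. The Euler factors of the primes dividing `E` are removed from `L(1/2, χ)`; they change it at most by the
  factor `exp (∑_{p ∣ E} p^(-1/2)) ≤ exp (κ √(log q / log log q))` with `κ` small (`DL`, `Cost`).
3. The resonator is supported on the squarefree numbers with at most `I` prime factors, all between
  `(log q)^6` and `(log q)^(6 B)` and prime to `E`.  A relation `a ≡ g b` which is not small contributes at most
  `(a b)^(-1/3)` times the main term (`Core1`, `shift_le`, `sq_le`), and there are at most `k` of them; so all
  together contribute at most `k A^(-1/3) = 1/16` times the main term (`Core2`, `Core3`).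
4. The gain of the resonator is `exp (c' √(log q / log log q))` (`Par`).

Libraries: helper487 (Pólya-Vinogradov for prime moduli), helper307 (truncated formula for `L(s, χ)`),
Mertens' theorem.
-/

set_option autoImplicit false

namespace Pool.Agent.Results.MP_3e6494_nt.AllCosets

/-- **Large central values in every coset.** -/
theorem result : ∃ c : ℝ, 0 < c ∧ ∃ q₀ : ℕ, ∀ (q : ℕ) [NeZero q], q.Prime → q₀ ≤ q →
    ∀ H : Subgroup (DirichletCharacter ℂ q), (H.index : ℝ) ≤ Real.exp (c * √(Real.log q)) →
      ∀ χ₀ : DirichletCharacter ℂ q, ∃ χ : DirichletCharacter ℂ q, χ₀⁻¹ * χ ∈ H ∧ χ ≠ 1 ∧
        Real.exp (c * √(Real.log q / Real.log (Real.log q))) ≤ ‖χ.LFunction (1 / 2)‖ :=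
  Pool.Agent.Q28.CS.coset_large

end Pool.Agent.Results.MP_3e6494_nt.AllCosets
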