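import Pool.Agent.Q28.SG.Fin

/-!
# Extreme central values in every subgroup of more than `q^(1/2)` characters

Let `q` be a prime and let `H` be a subgroup of the group of the Dirichlet characters modulo `q` with
at least `Q √q` elements, where `Q` is larger than a constant and than a constant times `(log q)^2`.
Then some nonprincipal `χ ∈ H` satisfies
`|L(1/2, χ)| ≥ exp (√(log Q log log log Q / log log Q) / 10000)`.

For `Q = q ^ ε` this concerns every subgroup with `#H ≥ q ^ (1 / 2 + ε)`, that is of index up to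
`q ^ (1 / 2 - ε)`; the lower bound has the same order `exp (c √(log q log log log q / log log q))` as
the best known bound for the full group of characters. Known before for subgroups of index
`exp (o (√(log q / log log q)))`, with `exp ((1 / √3 + o(1)) √(log q / log log q))`.

Method: the average over `H` of a function with nonnegative coefficients is nonnegative. With this
positivity the resonator `∏_b ∑_{K ≤ k ≤ 2 K} (τ_b S_b)^k`, `S_b = ∑_{p ∈ P_b} χ(p)`, is compared with
its product with the truncated `L`-series without any information on the orthogonal group of `H`.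

Libraries: helper487 (Pólya-Vinogradov for prime moduli), helper307 (truncated formula for `L(s, χ)`).
-/

set_option autoImplicit false

namespace Pool.Agent.Results.MP_3e6494_nt.AllLargeSubgroups

theorem result : ∃ C : ℝ, ∀ (q : ℕ) [NeZero q], q.Prime →
    ∀ (H : Subgroup (DirichletCharacter ℂ q)) (Q : ℝ), C ≤ Q → C * Real.log q ^ 2 ≤ Q →
      Q * √q ≤ Nat.card H →
      ∃ χ ∈ H, χ ≠ 1 ∧ Real.exp (√(Real.log Q * Real.log (Real.log (Real.log Q)) /
        Real.log (Real.log Q)) / 10000) ≤ ‖χ.LFunction (1 / 2)‖ := by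
  classical
  obtain ⟨C, h⟩ := Pool.Agent.Q28.SG.fam
  refine ⟨C, fun q _ hq H Q hC hCq hQ => ?_⟩
  obtain ⟨𝓕, h𝓕⟩ : ∃ 𝓕 : Finset (DirichletCharacter ℂ q), ∀ χ, χ ∈ 𝓕 ↔ χ ∈ H :=
    ⟨Finset.univ.filter (· ∈ H), fun χ => by simp⟩
  have h1 : 1 ∈ 𝓕 := (h𝓕 1).2 H.one_mem
  have h2 : Nat.card H = 𝓕.card := by
    have h3 : Nat.card H = Nat.card {χ // χ ∈ 𝓕} :=
      Nat.card_congr (Equiv.subtypeEquivRight fun χ => (h𝓕 χ).symm)
    rw [h3, Nat.card_eq_fintype_card, Fintype.card_coe]
  rw [h2] at hQ
  obtain ⟨χ, hχ, hχ1, hχ2⟩ := h q hq 𝓕 (Pool.Agent.Q28.SG.posFam_subgroup H 𝓕 h𝓕) h1 Q hC hCq hQ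
  exact ⟨χ, (h𝓕 χ).1 hχ, hχ1, hχ2⟩

end Pool.Agent.Results.MP_3e6494_nt.AllLargeSubgroups
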