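import Pool.Agent.Q28.CV.Gen

/-!
# Extreme central values in all cosets (index up to `q ^ (1/3 - ε)`) and in most cosets
# (index up to `q ^ (1/2 - ε)`), for almost all primes

Let `θ ≥ 0`, `s > 0`, `ε > 0` and `2 θ + s + ε ≤ 1`.  There are `c > 0` and `Q₀` such that for all `Q ≥ Q₀` all
primes `q` in `[Q, 2 Q]` outside a set `𝓔` with at most `Q ^ (2 θ + s + ε)` elements have the following property: for
ALL subgroups `H` of the group of the Dirichlet characters modulo `q` of index at most `q ^ θ` and for all
characters `χ₀` modulo `q` with at most `q ^ (1 - s)` exceptions the coset `χ₀ H` contains a nonprincipal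
character `χ` with

  `|L(1/2, χ)| ≥ exp (c √(log q log log log q / log log q))`,

and there are no exceptions if `θ < s` (possible for `θ < 1/3`).  This is, up to `c`, the largest size which is known
in the full group of characters.

Method.  Let `G` be the orthogonal group of `H`, of the order `t = [X : H]`.  The terms off the diagonal of the
resonance method in the coset `χ₀ H` are the relations `k n = g m` modulo `q` with `g` in `G`, with the weights
`χ₀ (k n) conj χ₀ (m)`.

1. Mean square over all `χ₀` (`CV.L2`, `CV.Mean`): only the pairs of relations with the same `g` remain, and for a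
  given relation with the number `k` the relations with the same `g` and with `k' ≥ k` have the sum `O (k ^ (-1/2))`
  up to logarithms, for any coefficients with `(∑ r)² ≤ Δ ∑ r²`.  Thus the mean square is at most the sum of the
  relations with the weights `1 / k` in place of `k ^ (-1/2)`.
2. Average over the primes `q` (`CV.Avg`): a relation satisfies `(k n) ^ t ≡ m ^ t mod q`, therefore for given
  `k n ≠ m` there are at most `T ^ 2` such primes and exponents `t ≤ T`, up to logarithms, and the sum over `k`
  with the weights `1 / k` is a logarithm.  The total is `T ^ 2`.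
3. If the number of the exceptional characters is smaller than the order of `H`, there is no exceptional coset.
4. The diagonal `k n = m` is compared with the diagonal cut at the square of a huge modulus
  (`CU.Trip`), for which a lower bound follows from the resonance method for the full group; the coefficients are
  those of the block resonator with few costs (`CU.Coef`, `CU.Data`).
-/

set_option autoImplicit false

namespace Pool.Agent.Results.MP_3e6494_nt.AlmostAllModuli

/-- **Large central values in most or all cosets, for almost all primes.** -/
theorem result (θ s ε : ℝ) (hθ : 0 ≤ θ) (hs : 0 < s) (hε : 0 < ε) (h : 2 * θ + s + ε ≤ 1) :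
    ∃ c : ℝ, 0 < c ∧ ∃ Q₀ : ℕ, ∀ Q : ℕ, Q₀ ≤ Q →
      ∃ 𝓔 : Finset ℕ, (𝓔.card : ℝ) ≤ (Q : ℝ) ^ (2 * θ + s + ε) ∧
        ∀ (q : ℕ) [NeZero q], q.Prime → Q ≤ q → q ≤ 2 * Q → q ∉ 𝓔 →
          ∀ H : Subgroup (DirichletCharacter ℂ q), (H.index : ℝ) ≤ (q : ℝ) ^ θ →
            -- all but few characters `χ₀` have a large value in their coset
            ({χ₀ : DirichletCharacter ℂ q | ∀ χ : DirichletCharacter ℂ q, χ₀⁻¹ * χ ∈ H → χ ≠ 1 →
              ‖χ.LFunction (1 / 2)‖ <
                Real.exp (c * √(Real.log q * Real.log (Real.log (Real.log q)) /
                  Real.log (Real.log q)))}.ncard : ℝ) ≤ (q : ℝ) ^ (1 - s) ∧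
            -- all of them if `θ < s`
            (θ < s → ∀ χ₀ : DirichletCharacter ℂ q, ∃ χ : DirichletCharacter ℂ q, χ₀⁻¹ * χ ∈ H ∧ χ ≠ 1 ∧
              Real.exp (c * √(Real.log q * Real.log (Real.log (Real.log q)) / Real.log (Real.log q))) ≤
                ‖χ.LFunction (1 / 2)‖) :=
  Pool.Agent.Q28.CV.two_param hθ hs hε h

end Pool.Agent.Results.MP_3e6494_nt.AlmostAllModuli
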