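import Pool.Agent.Q44.Appr
import Pool.Agent.Q28.CU.Thm
import Pool.Agent.Q21.DW.Dy

/-!
# Extreme central values in every coset, for all prime moduli given by continued fractions

Let `0 < ε < 1/3`. There is `c > 0` with the following property. For all irrational `α` outside a set of Hausdorff
dimension at most `1 - ε`, in particular for almost every real number, all integers `(u, v) ≠ (0, 0)` and all but
finitely many convergents `p / q'` of the continued fraction of `α`: if `q = |u p + v q'|` is prime then for ALL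
subgroups `H` of the group of the Dirichlet characters modulo `q` of index at most `q ^ (1/3 - ε)` and ALL characters
`χ₀` modulo `q` the coset `χ₀ H` contains a nonprincipal character `χ` with
`|L(1/2, χ)| ≥ exp (c √(log q log log log q / log log q))`. The same for the approximations of other qualities, for the points of
`ℝ ^ d`, and for the values of polynomials at the denominator and the numerators.
-/

set_option autoImplicit false

namespace Pool.Agent.Results.MP_3e6494_nt.GoodApproximations

open Pool.Agent.Q44.CF (AtApproximations at_of)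

/-- the modulus `q`, if it is prime: every coset of every subgroup of index at most `q ^ (1/3 - ε)` contains a
nonprincipal character with a central value of absolute value at least `exp (c √(log q log log log q / log log q))` -/
def Good (ε c : ℝ) (q : ℕ) : Prop :=
  ∀ [NeZero q], q.Prime → ∀ H : Subgroup (DirichletCharacter ℂ q), (H.index : ℝ) ≤ (q : ℝ) ^ (1 / 3 - ε) →
    ∀ χ₀ : DirichletCharacter ℂ q, ∃ χ : DirichletCharacter ℂ q, χ₀⁻¹ * χ ∈ H ∧ χ ≠ 1 ∧
      Real.exp (c * √(Real.log q * Real.log (Real.log (Real.log q)) / Real.log (Real.log q))) ≤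
        ‖χ.LFunction (1 / 2)‖

/-- **Theorem.** For `0 < ε < 1/3` there is `c > 0` such that all prime moduli given by good rational approximations of
real numbers and real points, in the sense of `AtApproximations (1 - 2 ε)`, have extreme central values in every coset
of every subgroup of index at most `q ^ (1/3 - ε)`. -/
theorem result (ε : ℝ) (hε : 0 < ε) (hε3 : ε < 1 / 3) :
    ∃ c : ℝ, 0 < c ∧ AtApproximations (1 - 2 * ε) (Good ε c) := by
  classical
  obtain ⟨c, hc, Q₀, h⟩ := Pool.Agent.Q28.CU.almost_all hε hε3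
  refine ⟨c, hc, at_of (B := fun q => ¬ Good ε c q) (by linarith) ?_ (fun _ h => h)⟩
  refine Pool.Agent.Q21.DW.ps_dyadic' (by linarith) fun t ht => ⟨1, 2 * Q₀ + 2, fun N hN hN1 => ?_⟩
  obtain ⟨Q, hQ⟩ : ∃ Q : ℕ, Q = (N + 1) / 2 := ⟨_, rfl⟩
  obtain ⟨E, hE, hE2⟩ := h Q (by omega)
  have hsub : {n : ℕ | 1 ≤ n ∧ n ≤ N ∧ N < 2 * n ∧ ¬ Good ε c n} ⊆ (E : Set ℕ) := by
    rintro q ⟨h1, h2, h3, h4⟩
    by_contra h5
    apply h4
    intro _ hp H hH χ₀
    exact hE2 q hp (by omega) (by omega) (fun h6 => h5 (Finset.mem_coe.2 h6)) H hH χ₀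
  have h1 := Set.ncard_le_ncard hsub (Finset.finite_toSet E)
  rw [Set.ncard_coe_finset] at h1
  have hQN : (Q : ℝ) ≤ N := by exact_mod_cast (by omega : Q ≤ N)
  have hN1' : (1 : ℝ) ≤ N := by exact_mod_cast hN1
  rw [one_mul]
  calc (({n : ℕ | 1 ≤ n ∧ n ≤ N ∧ N < 2 * n ∧ ¬ Good ε c n} : Set ℕ).ncard : ℝ) ≤ E.card := Nat.cast_le.2 h1
    _ ≤ (Q : ℝ) ^ (1 - 2 * ε) := hE
    _ ≤ (N : ℝ) ^ (1 - 2 * ε) := Real.rpow_le_rpow (Nat.cast_nonneg _) hQN (by linarith)
    _ ≤ (N : ℝ) ^ t := Real.rpow_le_rpow_of_exponent_le hN1' ht.le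

end Pool.Agent.Results.MP_3e6494_nt.GoodApproximations
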